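import Pool.Agent.Helper12.HeightLB

set_option autoImplicit false

open Polynomial Pool.Agent.Helper12.HeightLB

namespace Pool.Agent.Results.MP_d88658_nt.CubicThirteenHalves

lemma cubic_sep (a b c e : ℤ) (ha : a ≠ 0)
    (hD : b ^ 2 * c ^ 2 - 4 * a * c ^ 3 - 4 * b ^ 3 * e - 27 * a ^ 2 * e ^ 2 + 18 * a * b * c * e ≠ 0) :
    ((C a * X ^ 3 + C b * X ^ 2 + C c * X + C e : ℤ[X]).map (Int.castRingHom ℚ)).Separable := by
  set D : ℤ := b ^ 2 * c ^ 2 - 4 * a * c ^ 3 - 4 * b ^ 3 * e - 27 * a ^ 2 * e ^ 2 + 18 * a * b * c * e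
    with hDdef
  have hDQ : ((-9 * a * D : ℤ) : ℚ) ≠ 0 := by
    have : (-9 * a * D : ℤ) ≠ 0 := mul_ne_zero (mul_ne_zero (by norm_num) ha) hD
    exact_mod_cast this
  rw [Polynomial.separable_def']
  set k : ℚ := (((-9 * a * D : ℤ) : ℚ))⁻¹ with hk
  set p : ℤ := 6 * a * c - 2 * b ^ 2 with hp
  set q : ℤ := 9 * a * e - b * c with hq
  have hmap : (C a * X ^ 3 + C b * X ^ 2 + C c * X + C e : ℤ[X]).map (Int.castRingHom ℚ) =
      C (a : ℚ) * X ^ 3 + C (b : ℚ) * X ^ 2 + C (c : ℚ) * X + C (e : ℚ) := by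
    simp only [Polynomial.map_add, Polynomial.map_mul, Polynomial.map_pow, Polynomial.map_X,
      Polynomial.map_C]
    rfl
  rw [hmap]
  refine ⟨C (k * (-(9 * a : ℚ))) * (C (3 * a * p : ℚ) * X + C (2 * b * p - 3 * a * q : ℚ)),
    C k * (C ((p : ℚ) ^ 2) + (C (3 * a * p : ℚ) * X + C (2 * b * p - 3 * a * q : ℚ)) *
        (C (3 * a : ℚ) * X + C (b : ℚ))), ?_⟩
  have h1 : (1 : ℚ[X]) = C (k * ((-9 * a * D : ℤ) : ℚ)) := by
    rw [hk, inv_mul_cancel₀ hDQ, C_1]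
  rw [h1]
  apply Polynomial.funext
  intro r
  simp only [derivative_add, derivative_mul, derivative_C, derivative_X_pow, derivative_X,
      eval_add, eval_mul, eval_C, eval_X, eval_pow, hp, hq, hDdef, eval_zero, eval_one, eval_natCast]
  push_cast
  ring

lemma coef_bd (t : ℤ) (ht : 5 ≤ t) (i : ℕ) :
    |(C (4 * t) * X ^ 3 + C (-243 * (t ^ 2 + 12)) * X ^ 2 + C (354294 * t) * X +
      C (-531441 * (20 * t ^ 2 - 1)) : ℤ[X]).coeff i| ≤ 20000000 * t ^ 2 := by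
  have h1 : t ≤ t ^ 2 := by nlinarith
  have h25 : 25 ≤ t ^ 2 := by nlinarith
  have hc : (C (4 * t) * X ^ 3 + C (-243 * (t ^ 2 + 12)) * X ^ 2 + C (354294 * t) * X +
      C (-531441 * (20 * t ^ 2 - 1)) : ℤ[X]).coeff i =
      (if i = 3 then 4 * t else 0) + (if i = 2 then -243 * (t ^ 2 + 12) else 0) +
        (if i = 1 then 354294 * t else 0) + (if i = 0 then -531441 * (20 * t ^ 2 - 1) else 0) := by
    simp only [coeff_add, coeff_C_mul, coeff_X_pow, coeff_X, coeff_C]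
    congr 1
    congr 1
    · congr 1
      · split_ifs <;> simp
      · split_ifs <;> simp
    · by_cases h : i = 1
      · subst h; simp
      · have h' : ¬ (1 = i) := fun h2 => h h2.symm
        simp [h, h']
  rw [hc, abs_le]
  generalize t ^ 2 = u at *
  split_ifs <;> constructor <;> linarith

lemma disc_ne (t : ℤ) (ht : 5 ≤ t) : (-243 * (t ^ 2 + 12)) ^ 2 * (354294 * t) ^ 2 -
    4 * (4 * t) * (354294 * t) ^ 3 -
    4 * (-243 * (t ^ 2 + 12)) ^ 3 * (-531441 * (20 * t ^ 2 - 1)) -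
    27 * (4 * t) ^ 2 * (-531441 * (20 * t ^ 2 - 1)) ^ 2 +
    18 * (4 * t) * (-243 * (t ^ 2 + 12)) * (354294 * t) * (-531441 * (20 * t ^ 2 - 1)) ≠ 0 := by
  have hD : (-243 * (t ^ 2 + 12)) ^ 2 * (354294 * t) ^ 2 - 4 * (4 * t) * (354294 * t) ^ 3 -
      4 * (-243 * (t ^ 2 + 12)) ^ 3 * (-531441 * (20 * t ^ 2 - 1)) -
      27 * (4 * t) ^ 2 * (-531441 * (20 * t ^ 2 - 1)) ^ 2 +
      18 * (4 * t) * (-243 * (t ^ 2 + 12)) * (354294 * t) * (-531441 * (20 * t ^ 2 - 1)) =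
      -(432 * 81 ^ 6) * (5 * (t ^ 2) ^ 4 - 21 * (t ^ 2) ^ 3 + 32 * (t ^ 2) ^ 2 + 109 * (t ^ 2) - 432) := by
    ring
  rw [hD]
  have h25 : 25 ≤ t ^ 2 := by nlinarith
  generalize t ^ 2 = u at h25
  have h3 : 0 < u ^ 3 := by positivity
  have h2 : 0 < u ^ 2 := by positivity
  have e1 : 0 < u ^ 3 * (5 * u - 21) := mul_pos h3 (by linarith)
  have hpos : 0 < 5 * u ^ 4 - 21 * u ^ 3 + 32 * u ^ 2 + 109 * u - 432 := by nlinarith
  apply mul_ne_zero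
  · norm_num
  · exact hpos.ne'

lemma pt (t : ℤ) : (-729 + 7049 * t ^ 2 - 9657 * t ^ 4 + 2340 * t ^ 6 + 2343 * t ^ 8 -
    1773 * t ^ 10 + 396 * t ^ 12 + 87 * t ^ 14 - 72 * t ^ 16 + 18 * t ^ 18 - 2 * t ^ 20) ^ 2 =
    (C (4 * t) * X ^ 3 + C (-243 * (t ^ 2 + 12)) * X ^ 2 + C (354294 * t) * X +
      C (-531441 * (20 * t ^ 2 - 1)) : ℤ[X]).eval
      (t * (1 + 183 * t ^ 2 - 120 * t ^ 4 + 7 * t ^ 6 + 15 * t ^ 8 - 6 * t ^ 10 + t ^ 12)) := by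
  simp only [eval_add, eval_mul, eval_C, eval_pow, eval_X]
  ring

lemma big (t : ℤ) (ht : 5 ≤ t) : t ^ 13 ≤ 20000000 * (t * (1 + 183 * t ^ 2 - 120 * t ^ 4 +
    7 * t ^ 6 + 15 * t ^ 8 - 6 * t ^ 10 + t ^ 12)) := by
  have ht0 : 0 < t := by linarith
  have h25 : 25 ≤ t ^ 2 := by nlinarith
  have e4 : t ^ 12 ≤ 20000000 * (1 + 183 * t ^ 2 - 120 * t ^ 4 + 7 * t ^ 6 + 15 * t ^ 8 -
      6 * t ^ 10 + t ^ 12) := by
    have : ∀ u : ℤ, 25 ≤ u → u ^ 6 ≤ 20000000 * (1 + 183 * u - 120 * u ^ 2 + 7 * u ^ 3 +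
        15 * u ^ 4 - 6 * u ^ 5 + u ^ 6) := by
      intro u hu
      have h5 : 0 < u ^ 5 := by positivity
      have h2 : 0 < u ^ 2 := by positivity
      have h3 : 0 < u ^ 3 := by positivity
      have e1 : 0 ≤ u ^ 5 * (u - 12) := mul_nonneg h5.le (by linarith)
      have e2 : 0 ≤ u ^ 2 * (15 * u ^ 2 - 120) := mul_nonneg h2.le (by nlinarith)
      nlinarith
    have := this (t ^ 2) h25
    calc t ^ 12 = (t ^ 2) ^ 6 := by ring
      _ ≤ _ := this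
      _ = _ := by ring
  calc t ^ 13 = t * t ^ 12 := by ring
    _ ≤ t * (20000000 * (1 + 183 * t ^ 2 - 120 * t ^ 4 + 7 * t ^ 6 + 15 * t ^ 8 -
      6 * t ^ 10 + t ^ 12)) := mul_le_mul_of_nonneg_left e4 ht0.le
    _ = _ := by ring

/-- In degree `3`, any admissible constant `C₁` is at least `13/2`. -/
theorem result :
    ∀ C₁ C₂ : ℝ, (∀ f : Polynomial ℤ, f.natDegree = 3 →
      (f.map (Int.castRingHom ℚ)).Separable →
      ∀ x y : ℤ, y ^ 2 = f.eval x →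
        Real.log (max |(x : ℝ)| 1) ≤
          C₁ * Real.log (max ((f.support.sup (fun i => (f.coeff i).natAbs) : ℕ) : ℝ) 1) + C₂) →
      13 / 2 ≤ C₁ := by
  intro C₁ C₂ hbound
  have key : ((13 : ℕ) : ℝ) / ((2 : ℕ) : ℝ) ≤ C₁ := by
    refine exponent_lower 3 2 13 (by norm_num) (by norm_num) 20000000 (by norm_num) ?_ C₁ C₂ hbound
    intro N
    obtain ⟨n, hnN, hn5⟩ : ∃ n : ℕ, N ≤ n ∧ 5 ≤ n := ⟨N + 5, by omega, by omega⟩
    have ht5 : (5 : ℤ) ≤ (n : ℤ) := by exact_mod_cast hn5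
    refine ⟨n, hnN, by omega, _, _, _, ?_, ?_, ?_, pt (n : ℤ), ?_⟩
    · apply Polynomial.natDegree_cubic
      have : (4 * (n : ℤ)) ≠ 0 := by positivity
      exact this
    · exact cubic_sep _ _ _ _ (by positivity) (disc_ne _ ht5)
    · intro i
      have h1 := coef_bd (n : ℤ) ht5 i
      generalize |(C (4 * (n : ℤ)) * X ^ 3 + C (-243 * ((n : ℤ) ^ 2 + 12)) * X ^ 2 +
        C (354294 * (n : ℤ)) * X + C (-531441 * (20 * (n : ℤ) ^ 2 - 1)) : ℤ[X]).coeff i| = z at h1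
      have h2 : ((z : ℤ) : ℝ) ≤ ((20000000 * (n : ℤ) ^ 2 : ℤ) : ℝ) := Int.cast_le.mpr h1
      rw [Int.cast_mul, Int.cast_pow, Int.cast_natCast] at h2
      exact_mod_cast h2
    · have h1 := big (n : ℤ) ht5
      generalize ((n : ℤ) * (1 + 183 * (n : ℤ) ^ 2 - 120 * (n : ℤ) ^ 4 + 7 * (n : ℤ) ^ 6 +
        15 * (n : ℤ) ^ 8 - 6 * (n : ℤ) ^ 10 + (n : ℤ) ^ 12)) = z at h1
      have h2 : (((n : ℤ) ^ 13 : ℤ) : ℝ) ≤ ((20000000 * z : ℤ) : ℝ) := Int.cast_le.mpr h1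
      rw [Int.cast_mul, Int.cast_pow, Int.cast_natCast] at h2
      have h3 : (n : ℝ) ^ 13 ≤ 20000000 * (z : ℝ) := by exact_mod_cast h2
      exact h3.trans (mul_le_mul_of_nonneg_left (le_abs_self _) (by norm_num))
  norm_num at key
  exact key

end Pool.Agent.Results.MP_d88658_nt.CubicThirteenHalves
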