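import Pool.Agent.Helper28.EF.Final

set_option autoImplicit false

open Polynomial

namespace Pool.Agent.Results.MP_d88658_nt.ExponentFour

/-- In every degree `d ≥ 3`, any admissible constant `C₁` is at least `4`. -/
theorem result :
    ∀ d : ℕ, 3 ≤ d → ∀ C₁ C₂ : ℝ, (∀ f : Polynomial ℤ, f.natDegree = d →
      (f.map (Int.castRingHom ℚ)).Separable →
      ∀ x y : ℤ, y ^ 2 = f.eval x →
        Real.log (max |(x : ℝ)| 1) ≤
          C₁ * Real.log (max ((f.support.sup (fun i => (f.coeff i).natAbs) : ℕ) : ℝ) 1) + C₂) →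
      4 ≤ C₁ := by
  intro d hd C₁ C₂ hbound
  exact Pool.Agent.Helper28.EF.main d hd C₁ C₂ hbound

end Pool.Agent.Results.MP_d88658_nt.ExponentFour
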