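import Pool.Agent.Helper12.HeightFam

set_option autoImplicit false

open Polynomial Pool.Agent.Helper12.HeightLB

namespace Pool.Agent.Results.MP_d88658_nt.ExponentThree

lemma coef_X_mul (f : ℤ[X]) (B : ℤ) (hB : 0 ≤ B) (h : ∀ i, |f.coeff i| ≤ B) (i : ℕ) :
    |(X * f).coeff i| ≤ B := by
  rcases i with _ | i
  · simpa using hB
  · rw [Polynomial.coeff_X_mul]; exact h i

/-- In every degree `d ≥ 3`, any admissible constant `C₁` is at least `3`. -/
theorem result :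
    ∀ d : ℕ, 3 ≤ d → ∀ C₁ C₂ : ℝ, (∀ f : Polynomial ℤ, f.natDegree = d →
      (f.map (Int.castRingHom ℚ)).Separable →
      ∀ x y : ℤ, y ^ 2 = f.eval x →
        Real.log (max |(x : ℝ)| 1) ≤
          C₁ * Real.log (max ((f.support.sup (fun i => (f.coeff i).natAbs) : ℕ) : ℝ) 1) + C₂) →
      3 ≤ C₁ := by
  intro d hd C₁ C₂ hbound
  have key : ((6 : ℕ) : ℝ) / ((2 : ℕ) : ℝ) ≤ C₁ := by
    refine exponent_lower d 2 6 (by norm_num) (by norm_num) 17 (by norm_num) ?_ C₁ C₂ hbound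
    intro N
    obtain ⟨a, r, hr, hda⟩ : ∃ a r : ℕ, r < 4 ∧ d = 4 * a + 3 + r :=
      ⟨(d - 3) / 4, (d - 3) % 4, Nat.mod_lt _ (by norm_num), by omega⟩
    have hxbound : ∀ n : ℕ, 1 ≤ n → ((n : ℝ)) ^ 6 ≤ 17 * |(((n : ℤ) ^ 6 : ℤ) : ℝ)| := by
      intro n hn
      have h1 : (0 : ℝ) ≤ (n : ℝ) ^ 6 := by positivity
      push_cast
      rw [abs_of_nonneg h1]
      linarith
    have hcast : ∀ (n : ℕ) (f : ℤ[X]), (∀ i, |f.coeff i| ≤ 17 * (n : ℤ) ^ 2) →
        ∀ i, ((|f.coeff i| : ℤ) : ℝ) ≤ 17 * (n : ℝ) ^ 2 := by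
      intro n f h i
      have := h i
      have h2 : ((|f.coeff i| : ℤ) : ℝ) ≤ ((17 * (n : ℤ) ^ 2 : ℤ) : ℝ) := by exact_mod_cast this
      push_cast at h2 ⊢
      exact h2
    have hn1 : ∀ n : ℕ, 1 ≤ n → (1 : ℤ) ≤ (n : ℤ) ^ 2 := by
      intro n hn
      have : (1 : ℤ) ≤ n := by exact_mod_cast hn
      nlinarith
    have hr' : r = 0 ∨ r = 1 ∨ r = 2 ∨ r = 3 := by omega
    rcases hr' with rfl | rfl | rfl | rfl
    · obtain ⟨n, hN, h1, hns⟩ := avoid _ (finite_bad (G0 a) (G1 a) (G_cop a) (G_W a)) N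
      have hsep := not_not.mp hns
      exact ⟨n, hN, h1, _, (n : ℤ) ^ 6, _, by rw [G_deg, hda], hsep,
        hcast n _ (fun i => G_bd a _ (hn1 n h1) i), G_sq a n, hxbound n h1⟩
    · obtain ⟨n, hN, h1, hns⟩ := avoid _ (finite_bad (G0 a) (G1 a) (G_cop a) (G_W a)) N
      have hsep := not_not.mp hns
      have hne : (G0 a + C ((n : ℤ) ^ 2) * G1 a) ≠ 0 := by
        intro h0
        have := G_deg a ((n : ℤ) ^ 2)
        rw [h0] at this
        simp at this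
      refine ⟨n, hN, h1, X * (G0 a + C ((n : ℤ) ^ 2) * G1 a), (n : ℤ) ^ 6,
        (n : ℤ) ^ 3 * (((n : ℤ) ^ 6) ^ a * ((n : ℤ) ^ 6) ^ a * (n : ℤ) ^ 9 +
          2 * ((n : ℤ) ^ 6) ^ a * (n : ℤ) ^ 5 - 2 * (n : ℤ)), ?_, ?_, ?_, ?_, hxbound n h1⟩
      · rw [Polynomial.natDegree_X_mul hne, G_deg, hda]
      · apply sep_X_mul _ hsep
        rw [G_coeff]
        have h2 := hn1 n h1
        simp only [show (0 : ℕ) ≠ 4 * a + 3 by omega, show (0 : ℕ) ≠ a + 1 by omega,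
          show (0 : ℕ) ≠ 3 * a + 2 by omega, if_false, if_true]
        nlinarith
      · apply hcast
        apply coef_X_mul _ _ (by positivity)
        exact fun i => G_bd a _ (hn1 n h1) i
      · rw [mul_pow, G_sq, Polynomial.eval_mul, Polynomial.eval_X]
        ring
    · obtain ⟨n, hN, h1, hns⟩ := avoid _ (finite_bad (H0 a) (H1 a) (H_cop a) (H_W a)) N
      have hsep := not_not.mp hns
      have h2 := hn1 n h1
      exact ⟨n, hN, h1, _, (n : ℤ) ^ 6, _, by rw [H_deg _ _ (by omega), hda], hsep,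
        hcast n _ (fun i => H_bd a _ (hn1 n h1) i), H_sq a n, hxbound n h1⟩
    · obtain ⟨n, hN, h1, hns⟩ := avoid _ (finite_bad (H0 a) (H1 a) (H_cop a) (H_W a)) N
      have hsep := not_not.mp hns
      have h2 := hn1 n h1
      have hne : (H0 a + C ((n : ℤ) ^ 2) * H1 a) ≠ 0 := by
        intro h0
        have := H_deg a ((n : ℤ) ^ 2) (by omega)
        rw [h0] at this
        simp at this
      refine ⟨n, hN, h1, X * (H0 a + C ((n : ℤ) ^ 2) * H1 a), (n : ℤ) ^ 6,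
        (n : ℤ) ^ 3 * (1 + 2 * (((n : ℤ) ^ 6) ^ a * (n : ℤ) ^ 6) * (n : ℤ) ^ 2 -
          2 * (((n : ℤ) ^ 6) ^ a * (n : ℤ) ^ 6) ^ 2 * (n : ℤ) ^ 4), ?_, ?_, ?_, ?_, hxbound n h1⟩
      · rw [Polynomial.natDegree_X_mul hne, H_deg _ _ (by omega), hda]
      · apply sep_X_mul _ hsep
        rw [H_coeff]
        simp only [show (0 : ℕ) ≠ 4 * a + 5 by omega, show (0 : ℕ) ≠ a + 1 by omega,
          show (0 : ℕ) ≠ 3 * a + 4 by omega, if_false, if_true]
        simp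
      · apply hcast
        apply coef_X_mul _ _ (by positivity)
        exact fun i => H_bd a _ (hn1 n h1) i
      · rw [mul_pow, H_sq, Polynomial.eval_mul, Polynomial.eval_X]
        ring
  norm_num at key
  exact key

end Pool.Agent.Results.MP_d88658_nt.ExponentThree
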