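import Pool.Agent.Helper12.SidonPoly
import Pool.Agent.Helper12.HeightFam

set_option autoImplicit false

open Polynomial Pool.Agent.Helper12.SidonPoly

namespace Pool.Agent.Results.MP_d88658_nt.NoUniformConstants

section
variable (A : Finset ℕ) (L E D : ℕ)

def B : Finset ℕ := A ∪ A.image (fun a => E - a) ∪ {D}

noncomputable def G : ℤ[X] := ∑ b ∈ B A E D, X ^ b

lemma memB' (h0 : 0 ∈ A) (hL : ∀ a ∈ A, a ≤ L) (hE : E = 4 * L) (b : ℕ) (hb : b ∈ B A E D) :
    ∃ a ∈ A, a ≤ L ∧ (b = a ∨ b + a = E ∨ (a = 0 ∧ b = D)) := by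
  unfold B at hb
  rw [Finset.mem_union, Finset.mem_union, Finset.mem_singleton, Finset.mem_image] at hb
  rcases hb with (hb | ⟨a, ha, rfl⟩) | hb
  · exact ⟨b, hb, hL b hb, Or.inl rfl⟩
  · refine ⟨a, ha, hL a ha, Or.inr (Or.inl ?_)⟩
    have := hL a ha
    omega
  · exact ⟨0, h0, by omega, Or.inr (Or.inr ⟨rfl, hb⟩)⟩

lemma rep (hS : Sid A) (h0 : 0 ∈ A) (hL : ∀ a ∈ A, a ≤ L) (hL1 : 1 ≤ L) (hE : E = 4 * L) (hD : 2 * E < D)
    (b1 b2 b3 b4 : ℕ) (h1 : b1 ∈ B A E D) (h2 : b2 ∈ B A E D) (h3 : b3 ∈ B A E D)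
    (h4 : b4 ∈ B A E D) (h : b1 + b2 = b3 + b4) (hne : b1 + b2 ≠ E) :
    (b1 = b3 ∧ b2 = b4) ∨ (b1 = b4 ∧ b2 = b3) := by
  obtain ⟨a1, m1, l1, c1⟩ := memB' A L E D h0 hL hE b1 h1
  obtain ⟨a2, m2, l2, c2⟩ := memB' A L E D h0 hL hE b2 h2
  obtain ⟨a3, m3, l3, c3⟩ := memB' A L E D h0 hL hE b3 h3
  obtain ⟨a4, m4, l4, c4⟩ := memB' A L E D h0 hL hE b4 h4
  have s1 := hS a1 m1 a2 m2 a3 m3 a4 m4
  have s2 := hS a1 m1 a4 m4 a2 m2 a3 m3
  have s3 := hS a1 m1 a3 m3 a2 m2 a4 m4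
  clear m1 m2 m3 m4 h1 h2 h3 h4 hS hL
  rcases c1 with c1 | c1 | c1 <;> rcases c2 with c2 | c2 | c2 <;>
    rcases c3 with c3 | c3 | c3 <;> rcases c4 with c4 | c4 | c4 <;> omega

lemma G_coeff (i : ℕ) : (G A E D).coeff i = if i ∈ B A E D then 1 else 0 := by
  unfold G
  rw [Polynomial.finset_sum_coeff]
  simp only [coeff_X_pow]
  rw [Finset.sum_ite_eq]

noncomputable def r (s : ℕ) : Finset (ℕ × ℕ) :=
  (Finset.HasAntidiagonal.antidiagonal s).filter (fun q => q.1 ∈ B A E D ∧ q.2 ∈ B A E D)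

lemma GG_coeff (s : ℕ) : (G A E D * G A E D).coeff s = ((r A E D s).card : ℤ) := by
  rw [Polynomial.coeff_mul]
  unfold r
  rw [Finset.card_filter]
  push_cast
  apply Finset.sum_congr rfl
  intro q _
  rw [G_coeff, G_coeff]
  by_cases h1 : q.1 ∈ B A E D <;> by_cases h2 : q.2 ∈ B A E D <;> simp [h1, h2]

lemma r_le_two (hS : Sid A) (h0 : 0 ∈ A) (hL : ∀ a ∈ A, a ≤ L) (hL1 : 1 ≤ L) (hE : E = 4 * L)
    (hD : 2 * E < D) (s : ℕ) (hs : s ≠ E) : (r A E D s).card ≤ 2 := by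
  rcases (r A E D s).eq_empty_or_nonempty with he | ⟨q, hq⟩
  · rw [he]; simp
  · have hsub : r A E D s ⊆ {q, (q.2, q.1)} := by
      intro q' hq'
      unfold r at hq hq'
      rw [Finset.mem_filter, Finset.HasAntidiagonal.mem_antidiagonal] at hq hq'
      have := rep A L E D hS h0 hL hL1 hE hD q'.1 q'.2 q.1 q.2 hq'.2.1 hq'.2.2 hq.2.1 hq.2.2
        (by omega) (by omega)
      rw [Finset.mem_insert, Finset.mem_singleton]
      rcases this with ⟨e1, e2⟩ | ⟨e1, e2⟩
      · left; exact Prod.ext e1 e2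
      · right; exact Prod.ext e1 e2
    calc (r A E D s).card ≤ ({q, (q.2, q.1)} : Finset (ℕ × ℕ)).card := Finset.card_le_card hsub
      _ ≤ 2 := Finset.card_le_two

lemma r_E (hL : ∀ a ∈ A, a ≤ L) (hL1 : 1 ≤ L) (hE : E = 4 * L)
    (hD : 2 * E < D) : (r A E D E).card = 2 * A.card := by
  have hdisj : Disjoint A (A.image (fun a => E - a)) := by
    rw [Finset.disjoint_left]
    intro a ha hb
    obtain ⟨b, hb, hab⟩ := Finset.mem_image.mp hb
    have h1 := hL a ha
    have h2 := hL b hb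
    omega
  have hcard : (A ∪ A.image (fun a => E - a)).card = 2 * A.card := by
    rw [Finset.card_union_of_disjoint hdisj, Finset.card_image_of_injOn]
    · ring
    · intro a ha b hb hab
      have h1 := hL a ha
      have h2 := hL b hb
      have h3 : E - a = E - b := hab
      omega
  rw [← hcard]
  have hr : r A E D E = (A ∪ A.image (fun a => E - a)).image (fun b => (b, E - b)) := by
    ext ⟨x, y⟩
    unfold r
    rw [Finset.mem_filter, Finset.HasAntidiagonal.mem_antidiagonal, Finset.mem_image]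
    constructor
    · rintro ⟨hxy, hx, _⟩
      refine ⟨x, ?_, ?_⟩
      · unfold B at hx
        rw [Finset.mem_union, Finset.mem_singleton] at hx
        rcases hx with hx | hx
        · exact hx
        · exfalso
          have : x + y = E := hxy
          have : x = D := hx
          omega
      · have : x + y = E := hxy
        ext
        · rfl
        · show E - x = y
          omega
    · rintro ⟨b, hb, hbe⟩
      have e1 : b = x := congrArg Prod.fst hbe
      have e2 : E - b = y := congrArg Prod.snd hbe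
      subst e1
      subst e2
      rw [Finset.mem_union, Finset.mem_image] at hb
      rcases hb with hb | ⟨a, ha, rfl⟩
      · have := hL b hb
        refine ⟨by show b + (E - b) = E; omega, ?_, ?_⟩
        · unfold B; simp [hb]
        · unfold B
          rw [Finset.mem_union, Finset.mem_union, Finset.mem_image]
          exact Or.inl (Or.inr ⟨b, hb, rfl⟩)
      · have := hL a ha
        refine ⟨by show (E - a) + (E - (E - a)) = E; omega, ?_, ?_⟩
        · unfold B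
          rw [Finset.mem_union, Finset.mem_union, Finset.mem_image]
          exact Or.inl (Or.inr ⟨a, ha, rfl⟩)
        · have e : E - (E - a) = a := by omega
          show E - (E - a) ∈ B A E D
          rw [e]
          unfold B; simp [ha]
  rw [hr, Finset.card_image_of_injective]
  intro a b hab
  exact congrArg Prod.fst hab

lemma r_E1 (hL : ∀ a ∈ A, a ≤ L) (hev : ∀ a ∈ A, a % 2 = 0) (h0 : 0 ∈ A) (hL1 : 1 ≤ L)
    (hE : E = 4 * L) (hD : 2 * E < D) : (r A E D (E + 1)).card = 0 := by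
  rw [Finset.card_eq_zero, Finset.eq_empty_iff_forall_notMem]
  rintro ⟨x, y⟩ hxy
  unfold r at hxy
  rw [Finset.mem_filter, Finset.HasAntidiagonal.mem_antidiagonal] at hxy
  obtain ⟨h1, h2, h3⟩ := hxy
  obtain ⟨a1, m1, l1, c1⟩ := memB' A L E D h0 hL hE _ h2
  obtain ⟨a2, m2, l2, c2⟩ := memB' A L E D h0 hL hE _ h3
  have e1 := hev a1 m1
  have e2 := hev a2 m2
  simp only at h1 c1 c2
  omega

lemma r_zero (h0 : 0 ∈ A) : (r A E D 0).card = 1 := by
  have : r A E D 0 = {(0, 0)} := by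
    unfold r
    rw [Finset.Nat.antidiagonal_zero, Finset.filter_singleton]
    have : (0 : ℕ) ∈ B A E D := by unfold B; simp [h0]
    simp [this]
  rw [this]; rfl

lemma B_le (hL : ∀ a ∈ A, a ≤ L) (h0 : 0 ∈ A) (hE : E = 4 * L) (hD : 2 * E < D) (b : ℕ)
    (hb : b ∈ B A E D) : b ≤ D := by
  obtain ⟨a1, m1, l1, c1⟩ := memB' A L E D h0 hL hE _ hb
  omega

lemma r_top (hL : ∀ a ∈ A, a ≤ L) (h0 : 0 ∈ A) (hE : E = 4 * L) (hD : 2 * E < D) :
    (r A E D (2 * D)).card = 1 := by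
  have : r A E D (2 * D) = {(D, D)} := by
    ext ⟨x, y⟩
    unfold r
    rw [Finset.mem_filter, Finset.HasAntidiagonal.mem_antidiagonal, Finset.mem_singleton]
    constructor
    · rintro ⟨h1, h2, h3⟩
      have b1 := B_le A L E D hL h0 hE hD _ h2
      have b2 := B_le A L E D hL h0 hE hD _ h3
      simp only at h1 b1 b2
      ext
      · show x = D; omega
      · show y = D; omega
    · intro h
      have e1 : x = D := congrArg Prod.fst h
      have e2 : y = D := congrArg Prod.snd h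
      subst e1
      rw [e2]
      have : x ∈ B A E x := by unfold B; simp
      exact ⟨by show x + x = 2 * x; ring, this, this⟩
  rw [this]; rfl

/-- The monic polynomial `G² + (X - n) X^E`, `n = 2 |A|`. -/
noncomputable def F : ℤ[X] := G A E D * G A E D + (X - C ((2 * A.card : ℕ) : ℤ)) * X ^ E

lemma F_coeff (s : ℕ) : (F A E D).coeff s = ((r A E D s).card : ℤ) +
    ((if s = E + 1 then 1 else 0) - (if s = E then ((2 * A.card : ℕ) : ℤ) else 0)) := by
  unfold F
  rw [coeff_add, GG_coeff, sub_mul, coeff_sub, ← pow_succ', coeff_X_pow, coeff_C_mul, coeff_X_pow]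
  congr 2
  split_ifs <;> simp

lemma F_bd (hS : Sid A) (h0 : 0 ∈ A) (hL : ∀ a ∈ A, a ≤ L) (hL1 : 1 ≤ L) (hE : E = 4 * L)
    (hev : ∀ a ∈ A, a % 2 = 0) (hD : 2 * E < D) (s : ℕ) : |(F A E D).coeff s| ≤ 2 := by
  rw [F_coeff]
  by_cases h1 : s = E
  · subst h1
    rw [r_E A L s D hL hL1 hE hD]
    simp
  · by_cases h2 : s = E + 1
    · subst h2
      rw [r_E1 A L E D hL hev h0 hL1 hE hD]
      simp
    · have := r_le_two A L E D hS h0 hL hL1 hE hD s h1
      simp only [h1, h2, if_false]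
      have h3 : (0 : ℤ) ≤ ((r A E D s).card : ℤ) := by positivity
      have h4 : ((r A E D s).card : ℤ) ≤ 2 := by exact_mod_cast this
      rw [abs_le]; constructor <;> linarith

lemma F_zero (h0 : 0 ∈ A) (hE0 : 0 < E) : (F A E D).coeff 0 = 1 := by
  rw [F_coeff, r_zero A E D h0]
  have h1 : (0 : ℕ) ≠ E + 1 := by omega
  have h2 : (0 : ℕ) ≠ E := by omega
  simp [h2]

lemma F_monic (h0 : 0 ∈ A) (hL : ∀ a ∈ A, a ≤ L) (hL1 : 1 ≤ L) (hE : E = 4 * L)
    (hD : 2 * E < D) : (F A E D).Monic ∧ (F A E D).natDegree = 2 * D := by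
  have hGdeg : (G A E D).natDegree ≤ D := by
    unfold G
    apply Polynomial.natDegree_sum_le_of_forall_le
    intro b hb
    exact (natDegree_X_pow_le b).trans (B_le A L E D hL h0 hE hD b hb)
  have hle : (F A E D).natDegree ≤ 2 * D := by
    unfold F
    apply (natDegree_add_le _ _).trans
    apply max_le
    · apply natDegree_mul_le.trans; omega
    · apply natDegree_mul_le.trans
      have h1 : (X - C ((2 * A.card : ℕ) : ℤ) : ℤ[X]).natDegree = 1 := natDegree_X_sub_C _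
      have h2 := natDegree_X_pow_le (R := ℤ) E
      omega
  have hc : (F A E D).coeff (2 * D) = 1 := by
    rw [F_coeff, r_top A L E D hL h0 hE hD]
    have h1 : 2 * D ≠ E + 1 := by omega
    have h2 : 2 * D ≠ E := by omega
    simp [h1, h2]
  constructor
  · exact Polynomial.monic_of_natDegree_le_of_coeff_eq_one _ hle hc
  · exact Polynomial.natDegree_eq_of_le_of_coeff_ne_zero hle (by rw [hc]; norm_num)

lemma F_sep (h0 : 0 ∈ A) (hL : ∀ a ∈ A, a ≤ L) (hL1 : 1 ≤ L) (hE : E = 4 * L)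
    (hD : 2 * E < D) : ((F A E D).map (Int.castRingHom ℚ)).Separable := by
  apply sep_of_mod 2 Nat.prime_two _ (F_monic A L E D h0 hL hL1 hE hD).1
  have h2 : (2 : (ZMod 2)[X]) = 0 := by
    have h4 : (2 : ZMod 2) = 0 := by decide
    have h3 : (2 : (ZMod 2)[X]) = C (2 : ZMod 2) := (map_ofNat C 2).symm
    rw [h3, h4, C_0]
  set g := (G A E D).map (Int.castRingHom (ZMod 2)) with hg
  have hmap : (F A E D).map (Int.castRingHom (ZMod 2)) = g * g + X * X ^ E := by
    unfold F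
    rw [Polynomial.map_add, Polynomial.map_mul, Polynomial.map_mul, Polynomial.map_sub,
      Polynomial.map_X, Polynomial.map_C, Polynomial.map_pow, Polynomial.map_X, ← hg]
    have : (Int.castRingHom (ZMod 2)) ((2 * A.card : ℕ) : ℤ) = 0 := by
      push_cast
      have h3 : (Int.castRingHom (ZMod 2)) (2 * (A.card : ℤ)) = 2 * ((A.card : ℤ) : ZMod 2) := by
        simp
      rw [h3]
      have : (2 : ZMod 2) = 0 := by decide
      rw [this, zero_mul]
    rw [this, C_0, sub_zero]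
  have hder : derivative (g * g + X * X ^ E) = X ^ E := by
    rw [derivative_add, derivative_mul, derivative_mul, derivative_X, derivative_X_pow]
    have hEc : ((E : ℕ) : ZMod 2) = 0 := by
      rw [ZMod.natCast_eq_zero_iff]; omega
    rw [hEc, C_0, zero_mul, mul_zero, add_zero, one_mul]
    have : derivative g * g + g * derivative g = 2 * (g * derivative g) := by ring
    rw [this, h2, zero_mul, zero_add]
  rw [hmap]
  show IsCoprime (g * g + X * X ^ E) (derivative (g * g + X * X ^ E))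
  rw [hder]
  apply IsCoprime.pow_right
  apply IsCoprime.symm
  rw [Polynomial.irreducible_X.coprime_iff_not_dvd, Polynomial.X_dvd_iff, ← hmap,
    Polynomial.coeff_map, F_zero A E D h0 (by omega)]
  simp

lemma F_eval : (F A E D).eval ((2 * A.card : ℕ) : ℤ) =
    ((G A E D).eval ((2 * A.card : ℕ) : ℤ)) ^ 2 := by
  unfold F
  rw [eval_add, eval_mul, eval_mul, eval_sub, eval_X, eval_C, sub_self, zero_mul, add_zero, sq]

end

/-- Coefficients of size at most `2` allow integral points with `x ≥ c √d`. -/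
theorem result :
    ∀ N d : ℕ, 1 ≤ N → 30000 * N ^ 2 ≤ d → ∃ f : Polynomial ℤ, f.Monic ∧ f.natDegree = d ∧
      (f.map (Int.castRingHom ℚ)).Separable ∧ (∀ i, |f.coeff i| ≤ 2) ∧
      ∃ x y : ℤ, (N : ℤ) ≤ x ∧ y ^ 2 = f.eval x := by
  intro N d hN hd
  obtain ⟨s, hs1, hs2, hs3⟩ : ∃ s : ℕ, 1 ≤ s ∧ s * s ≤ N ∧ N < (s + 1) * (s + 1) :=
    ⟨Nat.sqrt N, Nat.sqrt_pos.mpr hN, Nat.sqrt_le N, Nat.lt_succ_sqrt N⟩
  obtain ⟨k, hk1, hk2⟩ : ∃ k : ℕ, s + 1 ≤ 2 * k ∧ 2 * k ≤ s + 2 := ⟨s / 2 + 1, by omega, by omega⟩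
  have hkpos : 1 ≤ k := by omega
  have hkN : N ≤ 4 * k ^ 2 := by nlinarith
  obtain ⟨A, hcard, h0, hS, hL, hev⟩ := sid_exists (2 * k ^ 2) (by nlinarith)
  set L := 64 * (2 * k ^ 2) ^ 2 with hLdef
  have hL1 : 1 ≤ L := by
    have : 1 ≤ k ^ 2 := Nat.one_le_pow _ _ hkpos
    have : 1 ≤ (2 * k ^ 2) ^ 2 := Nat.one_le_pow _ _ (by omega)
    omega
  have hD : 2 * (4 * L) < d / 2 := by
    have h1 : 2 * k ≤ 3 * s := by omega
    have h2 : (2 * k) ^ 4 ≤ (3 * s) ^ 4 := Nat.pow_le_pow_left h1 4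
    have h3 : s ^ 4 ≤ N ^ 2 := by
      calc s ^ 4 = (s * s) ^ 2 := by ring
        _ ≤ N ^ 2 := Nat.pow_le_pow_left hs2 2
    have h4 : 8 * L = 128 * (2 * k) ^ 4 := by rw [hLdef]; ring
    have h5 : (3 * s) ^ 4 = 81 * s ^ 4 := by ring
    have h6 : 1 ≤ N ^ 2 := Nat.one_le_pow _ _ hN
    omega
  have hn : ((2 * A.card : ℕ) : ℤ) = (2 * (k : ℤ)) ^ 2 := by
    rw [hcard]; push_cast; ring
  have hNx : (N : ℤ) ≤ ((2 * A.card : ℕ) : ℤ) := by
    rw [hcard]
    have : N ≤ 2 * (2 * k ^ 2) := by linarith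
    exact_mod_cast this
  obtain ⟨hmon, hdeg⟩ := F_monic A L (4 * L) (d / 2) h0 hL hL1 rfl hD
  have hsep := F_sep A L (4 * L) (d / 2) h0 hL hL1 rfl hD
  have hbd := F_bd A L (4 * L) (d / 2) hS h0 hL hL1 rfl hev hD
  have heval := F_eval A (4 * L) (d / 2)
  rcases Nat.even_or_odd d with hd2 | hd2
  · refine ⟨F A (4 * L) (d / 2), hmon, ?_, hsep, hbd, _, _, hNx, heval.symm⟩
    rw [hdeg]; obtain ⟨c, hc⟩ := hd2; omega
  · refine ⟨X * F A (4 * L) (d / 2), monic_X.mul hmon, ?_, ?_, ?_, _,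
      (2 * (k : ℤ)) * (G A (4 * L) (d / 2)).eval ((2 * A.card : ℕ) : ℤ), hNx, ?_⟩
    · rw [natDegree_X_mul hmon.ne_zero, hdeg]; obtain ⟨c, hc⟩ := hd2; omega
    · apply Pool.Agent.Helper12.HeightLB.sep_X_mul _ hsep
      rw [F_zero A (4 * L) (d / 2) h0 (by omega)]; norm_num
    · intro i
      rcases i with _ | i
      · simp
      · rw [coeff_X_mul]; exact hbd i
    · rw [eval_mul, eval_X, heval, mul_pow, ← hn]

end Pool.Agent.Results.MP_d88658_nt.NoUniformConstants
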