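import Pool.Agent.Helper36.HD.Unif

set_option autoImplicit false

open Polynomial

namespace Pool.Agent.Results.MP_d88658_nt.TransitiveHalves

/-- For every degree `d ≥ 1` there are constants such that for `f` of degree `d` without repeated roots, with
leading coefficient `a`, and for every integer `x`: either the bound of Q1 holds, or the absolute Galois
group of `ℚ` acts transitively on the families of square roots of `a (x - θ)`, `θ` running over the roots
of `f`, taken up to a common sign; and then every number field over which `a (x - X)` is a square modulo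
`f` has degree divisible by `2 ^ (d - 1)`. -/
theorem result :
    ∀ d : ℕ, 1 ≤ d → ∃ C₁ C₂ : ℝ, ∀ f : Polynomial ℤ, f.natDegree = d →
      (f.map (Int.castRingHom ℚ)).Separable → ∀ x : ℤ,
      Real.log (max |(x : ℝ)| 1) ≤
          C₁ * Real.log (max ((f.support.sup (fun i => (f.coeff i).natAbs) : ℕ) : ℝ) 1) + C₂ ∨
      ((∀ z z' : AlgebraicClosure ℚ → AlgebraicClosure ℚ,
          (∀ θ, aeval θ f = 0 →
            z θ ^ 2 = (f.leadingCoeff : AlgebraicClosure ℚ) * ((x : AlgebraicClosure ℚ) - θ)) →
          (∀ θ, aeval θ f = 0 →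
            z' θ ^ 2 = (f.leadingCoeff : AlgebraicClosure ℚ) * ((x : AlgebraicClosure ℚ) - θ)) →
          ∃ (τ : AlgebraicClosure ℚ ≃ₐ[ℚ] AlgebraicClosure ℚ) (s : ℤˣ),
            ∀ θ, aeval θ f = 0 → z' (τ θ) = ((s : ℤ) : AlgebraicClosure ℚ) * τ (z θ)) ∧
        ∀ (K : Type) [Field K] [NumberField K],
          (∃ z : Polynomial K, f.map (Int.castRingHom K) ∣
            z ^ 2 - C (f.leadingCoeff : K) * (C (x : K) - X)) →
          2 ^ (d - 1) ∣ Module.finrank ℚ K) := by
  intro d hd
  obtain ⟨C₁, C₂, h⟩ := Pool.Agent.Helper36.HD.transitive d hd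
  refine ⟨C₁, C₂, fun f hfd hsep x => ?_⟩
  rcases le_or_gt (Real.log (max |(x : ℝ)| 1)) (C₁ * Real.log (max ((f.support.sup
    (fun i => (f.coeff i).natAbs) : ℕ) : ℝ) 1) + C₂) with hx | hx
  · exact Or.inl hx
  · refine Or.inr ⟨(h f hfd hsep x hx).2, fun K _ _ hz => ?_⟩
    by_contra hn
    exact absurd (Pool.Agent.Helper36.HD.unif d hd C₁ C₂ h f hfd hsep x K hn hz) (not_le.2 hx)

end Pool.Agent.Results.MP_d88658_nt.TransitiveHalves
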